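import Pool.Agent.Run7.h796.Upper
import Pool.Agent.Run7.h796.Lower3
import Pool.Agent.Run7.h796.Rich3

/-!
# The repetition threshold of rich sequences over five letters

The conjectured equality of the repetition threshold of the class of rich sequences over `d`
letters and of the asymptotic critical exponent of the fixed point on `2 d - 1` letters fails
for `d = 5`.  The sequence `U : ℕ → Fin 5` of `Pool.Agent.Run7.h796.Word` is rich, all its
exponents are at most `35 / 17`, and the asymptotic critical exponent of the fixed point on nine
letters exceeds `35 / 17`.

All definitions used in the statement are in `Pool.Agent.Run7.h796.Defs`.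
-/

namespace Pool.Agent.Results.MP_9d05bc_co.RichThresholdFails

open Run7.h796.Rep

/-- The repetition threshold of rich sequences over five letters is at most `35 / 17`, which is
smaller than the asymptotic critical exponent of the fixed point on nine letters; so the
conjectured equality fails for `d = 5`. -/
theorem result :
    RT (richSeqs 5) ≤ ((35 / 17 : ℝ) : EReal) ∧
    ((35 / 17 : ℝ) : EReal) < asymCritExp (fixSeq 9) ∧
    ¬ ∀ d : ℕ, 2 ≤ d → RT (richSeqs d) = asymCritExp (fixSeq (2 * d - 1)) := by
  have h1 : RT (richSeqs 5) ≤ ((35 / 17 : ℝ) : EReal) :=
    (iInf₂_le U rich_U).trans critExp_U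
  refine ⟨h1, asym_lower, ?_⟩
  intro h
  have h2 := h 5 (by norm_num)
  rw [h2] at h1
  exact absurd asym_lower (not_lt.2 h1)

end Pool.Agent.Results.MP_9d05bc_co.RichThresholdFails
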